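import Pool.Agent.helper15.FH.Base

set_option autoImplicit false

/-! # FH project (MP_8af768_co), module ZL: partition function and entropy of the pair -/

namespace Pool.Agent.helper15.FH

open Finset Pool.Agent.helper32.Cant

noncomputable section

variable (c : Cfg)

theorem ind_prod_eq {α β : Type} (p q : α × β) :
    ind (p = q) = ind (p.1 = q.1) * ind (p.2 = q.2) := by
  by_cases h1 : p.1 = q.1
  · by_cases h2 : p.2 = q.2
    · rw [ind_of (Prod.ext h1 h2), ind_of h1, ind_of h2, one_mul]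
    · rw [ind_of_not (fun h => h2 (by rw [h])), ind_of_not h2, mul_zero]
  · rw [ind_of_not (fun h => h1 (by rw [h])), ind_of_not h1, zero_mul]

theorem sum_ind_eq' {α : Type} [Fintype α] (a : α) (f : α → ℝ) :
    ∑ b, ind (a = b) * f b = f a := by
  classical
  rw [sum_eq_single a]
  · rw [ind_of rfl, one_mul]
  · intro b _ hb
    rw [ind_of_not (Ne.symm hb), zero_mul]
  · intro h
    exact absurd (mem_univ a) h

theorem sum_ind_eq_one {α : Type} [Fintype α] (a : α) : ∑ b, ind (a = b) = 1 := by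
  have := sum_ind_eq' a (fun _ => (1 : ℝ))
  simpa using this

/-- the Gram form of the label part -/
theorem gram_label (p q : c.X × Fin 5) :
    ind (p.1 = q.1) * (ind (p.2 = q.2) - 1 / 5)
      = ∑ r : c.X × Fin 5, (ind (p.1 = r.1) * (ind (p.2 = r.2) - 1 / 5))
        * (ind (q.1 = r.1) * (ind (q.2 = r.2) - 1 / 5)) := by
  rw [Fintype.sum_prod_type]
  have h1 : ∀ x : c.X, ∑ i : Fin 5, (ind (p.1 = x) * (ind (p.2 = i) - 1 / 5))
        * (ind (q.1 = x) * (ind (q.2 = i) - 1 / 5))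
      = ind (p.1 = x) * (ind (q.1 = x) * (ind (p.2 = q.2) - 1 / 5)) := by
    intro x
    have h2 : ∀ i : Fin 5, (ind (p.1 = x) * (ind (p.2 = i) - 1 / 5))
        * (ind (q.1 = x) * (ind (q.2 = i) - 1 / 5))
        = ind (p.1 = x) * ind (q.1 = x) * (ind (p.2 = i) * ind (q.2 = i)
          - 1 / 5 * ind (p.2 = i) - 1 / 5 * ind (q.2 = i) + 1 / 25) := fun i => by ring
    simp_rw [h2]
    rw [← mul_sum, sum_add_distrib, sum_sub_distrib, sum_sub_distrib, ← mul_sum, ← mul_sum,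
      sum_ind_eq_one, sum_ind_eq_one, sum_ind_eq' p.2 (fun i => ind (q.2 = i)), sum_const,
      card_univ, Fintype.card_fin, ind_congr (eq_comm (a := q.2) (b := p.2)), mul_assoc]
    congr 2
    norm_num
  simp_rw [h1]
  rw [sum_ind_eq' p.1 (fun x => ind (q.1 = x) * (ind (p.2 = q.2) - 1 / 5)),
    ind_congr (eq_comm (a := q.1) (b := p.1))]

theorem bw_gram : ∃ (R : Type) (_ : Fintype R) (φ : R → c.X × Fin 5 → ℝ), ∀ p q,
    bw c p q = (1 + c.ρ) / (5 * Fintype.card c.X) + ∑ r, φ r p * φ r q := by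
  obtain ⟨R, hR, ψ, hψ⟩ := c.good.gram
  refine ⟨R ⊕ (c.X × Fin 5), inferInstance, fun r p => match r with
    | Sum.inl r => √(1 / 5) * ψ r p.1
    | Sum.inr r => ind (p.1 = r.1) * (ind (p.2 = r.2) - 1 / 5), fun p q => ?_⟩
  rw [Fintype.sum_sum_type]
  simp only
  rw [← gram_label]
  have h1 : ∀ r, √(1 / 5 : ℝ) * ψ r p.1 * (√(1 / 5) * ψ r q.1) = 1 / 5 * (ψ r p.1 * ψ r q.1) := by
    intro r
    have h2 : √(1 / 5 : ℝ) * √(1 / 5) = 1 / 5 := Real.mul_self_sqrt (by norm_num)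
    calc √(1 / 5 : ℝ) * ψ r p.1 * (√(1 / 5) * ψ r q.1)
        = (√(1 / 5 : ℝ) * √(1 / 5)) * (ψ r p.1 * ψ r q.1) := by ring
      _ = _ := by rw [h2]
  simp_rw [h1]
  rw [← mul_sum]
  have h3 := hψ p.1 q.1
  have h4 : ∑ r, ψ r p.1 * ψ r q.1 = ind (p.1 = q.1) + c.ρ / c.g * ind (c.Γ.Adj p.1 q.1)
      - (1 + c.ρ) / (Fintype.card c.X : ℝ) := by linarith
  rw [h4]
  unfold bw
  rw [ind_prod_eq]
  have hn : (Fintype.card c.X : ℝ) ≠ 0 := by
    have := Fintype.card_pos (α := c.X)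
    positivity
  have hg := (g_pos c).ne'
  field_simp
  ring

theorem M_pos : 0 < c.M := by
  obtain ⟨x⟩ := c.hX
  have ω0 : W c := fun _ => (x, (true, 0))
  exact lt_of_le_of_lt (Nat.zero_le _) (mm c ω0).2

theorem sum_mm (ω ω' : W c) :
    ind (mm c ω = mm c ω') = ∑ m, ind (mm c ω = m) * ind (mm c ω' = m) := by
  rw [sum_ind_eq' (mm c ω) (fun m => ind (mm c ω' = m)),
    ind_congr (eq_comm (a := mm c ω') (b := mm c ω))]

theorem card_W : (Fintype.card (W c) : ℝ) = (10 * (Fintype.card c.X : ℝ)) ^ c.N := by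
  have h : Fintype.card (W c) = (Fintype.card c.X * 10) ^ c.N := by
    simp only [W, Y, Fintype.card_pi_const, Fintype.card_prod, Fintype.card_bool, ZMod.card]
  rw [h]
  push_cast
  rw [mul_comm]

/-- a quadratic form with Gram kernel -/
theorem Zz_eq {R : Type} [Fintype R] (Φ : R → c.X × Fin 5 → ℝ)
    (hΦ : ∀ p q, bw c p q = ∑ r, Φ r p * Φ r q) :
    Zz c = ∑ s : Fin c.N → R, ∑ m : Fin c.M,
      (∑ ω : W c, ind (mm c ω = m) * ∏ l, Φ (s l) (vv c ω l)) ^ 2 := by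
  classical
  have h1 : ∀ ω ω' : W c, Bw c ω ω' = ∑ s : Fin c.N → R, ∑ m : Fin c.M,
      (ind (mm c ω = m) * ∏ l, Φ (s l) (vv c ω l))
        * (ind (mm c ω' = m) * ∏ l, Φ (s l) (vv c ω' l)) := by
    intro ω ω'
    unfold Bw
    have h2 : ∏ l, bw c (vv c ω l) (vv c ω' l)
        = ∑ s : Fin c.N → R, (∏ l, Φ (s l) (vv c ω l)) * ∏ l, Φ (s l) (vv c ω' l) := by
      simp_rw [hΦ]
      rw [prod_univ_sum]
      rw [Fintype.piFinset_univ]
      exact sum_congr rfl fun s _ => prod_mul_distrib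
    rw [h2, sum_mm, mul_sum]
    refine sum_congr rfl fun s _ => ?_
    rw [sum_mul]
    exact sum_congr rfl fun m _ => by ring
  unfold Zz
  simp_rw [h1]
  have h3 : ∀ (s : Fin c.N → R) (m : Fin c.M),
      (∑ ω : W c, ind (mm c ω = m) * ∏ l, Φ (s l) (vv c ω l)) ^ 2
        = ∑ ω : W c, ∑ ω' : W c, (ind (mm c ω = m) * ∏ l, Φ (s l) (vv c ω l))
          * (ind (mm c ω' = m) * ∏ l, Φ (s l) (vv c ω' l)) := by
    intro s m
    rw [sq, sum_mul_sum]
  simp_rw [h3]
  calc ∑ ω : W c, ∑ ω' : W c, ∑ s : Fin c.N → R, ∑ m : Fin c.M,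
        (ind (mm c ω = m) * ∏ l, Φ (s l) (vv c ω l))
          * (ind (mm c ω' = m) * ∏ l, Φ (s l) (vv c ω' l))
      = ∑ ω : W c, ∑ s : Fin c.N → R, ∑ ω' : W c, ∑ m : Fin c.M,
        (ind (mm c ω = m) * ∏ l, Φ (s l) (vv c ω l))
          * (ind (mm c ω' = m) * ∏ l, Φ (s l) (vv c ω' l)) :=
        sum_congr rfl fun ω _ => sum_comm
    _ = ∑ s : Fin c.N → R, ∑ ω : W c, ∑ ω' : W c, ∑ m : Fin c.M,
        (ind (mm c ω = m) * ∏ l, Φ (s l) (vv c ω l))
          * (ind (mm c ω' = m) * ∏ l, Φ (s l) (vv c ω' l)) := sum_comm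
    _ = ∑ s : Fin c.N → R, ∑ ω : W c, ∑ m : Fin c.M, ∑ ω' : W c,
        (ind (mm c ω = m) * ∏ l, Φ (s l) (vv c ω l))
          * (ind (mm c ω' = m) * ∏ l, Φ (s l) (vv c ω' l)) :=
        sum_congr rfl fun s _ => sum_congr rfl fun ω _ => sum_comm
    _ = _ := sum_congr rfl fun s _ => sum_comm

theorem Zz_ge : ((1 + c.ρ) / (5 * Fintype.card c.X)) ^ c.N
    * (10 * (Fintype.card c.X : ℝ)) ^ (2 * c.N) / c.M ≤ Zz c := by
  classical
  obtain ⟨R, hR, φ, hφ⟩ := bw_gram c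
  set κ : ℝ := (1 + c.ρ) / (5 * Fintype.card c.X) with hκ
  have hn : 0 < (Fintype.card c.X : ℝ) := by
    have := Fintype.card_pos (α := c.X)
    positivity
  have hκ0 : 0 ≤ κ := by
    have := ρ_pos c
    positivity
  have h1 : ∀ p q, bw c p q = ∑ r : Option R,
      (fun (r : Option R) p => match r with
        | none => √κ
        | some r => φ r p) r p * (fun (r : Option R) p => match r with
        | none => √κ
        | some r => φ r p) r q := by
    intro p q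
    rw [Fintype.sum_option]
    simp only
    rw [Real.mul_self_sqrt hκ0, hφ]
  rw [Zz_eq c _ h1]
  have hM : (0 : ℝ) < c.M := by exact_mod_cast M_pos c
  have h2 : ∑ m : Fin c.M, (∑ ω : W c, ind (mm c ω = m) * √κ ^ c.N) ^ 2
      ≤ ∑ s : Fin c.N → Option R, ∑ m : Fin c.M,
      (∑ ω : W c, ind (mm c ω = m) * ∏ l, (fun (r : Option R) p => match r with
        | none => √κ
        | some r => φ r p) (s l) (vv c ω l)) ^ 2 := by
    have h3 := single_le_sum (f := fun s : Fin c.N → Option R => ∑ m : Fin c.M,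
      (∑ ω : W c, ind (mm c ω = m) * ∏ l, (fun (r : Option R) p => match r with
        | none => √κ
        | some r => φ r p) (s l) (vv c ω l)) ^ 2)
      (fun s _ => sum_nonneg fun m _ => sq_nonneg _) (mem_univ (fun _ => none))
    simpa using h3
  refine le_trans ?_ h2
  have h4 : ∀ m : Fin c.M, (∑ ω : W c, ind (mm c ω = m) * √κ ^ c.N) ^ 2
      = κ ^ c.N * (∑ ω : W c, ind (mm c ω = m)) ^ 2 := by
    intro m
    rw [← sum_mul, mul_pow, ← pow_mul, mul_comm c.N 2, pow_mul, Real.sq_sqrt hκ0]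
    ring
  simp_rw [h4]
  rw [← mul_sum, mul_div_assoc]
  refine mul_le_mul_of_nonneg_left ?_ (pow_nonneg hκ0 _)
  rw [div_le_iff₀ hM]
  have h5 : ∑ m : Fin c.M, ∑ ω : W c, ind (mm c ω = m) = (Fintype.card (W c) : ℝ) := by
    rw [sum_comm]
    simp_rw [sum_ind_eq_one]
    simp
  have h6 := sq_sum_le_card_mul_sum_sq (s := (univ : Finset (Fin c.M)))
    (f := fun m => ∑ ω : W c, ind (mm c ω = m))
  rw [h5, card_univ, Fintype.card_fin, card_W, ← pow_mul, mul_comm c.N 2] at h6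
  rw [mul_comm _ (c.M : ℝ)]
  exact h6

theorem pm_self {Ω : Type} [Fintype Ω] (μ : Ω → ℝ) (ω : Ω) : pm μ (fun z => z) ω = μ ω := by
  unfold pm
  have h : ∀ y : Ω, μ y * ind (y = ω) = ind (ω = y) * μ y := by
    intro y
    rw [ind_congr (eq_comm (a := ω) (b := y)), mul_comm]
  simp_rw [h]
  exact sum_ind_eq' ω μ

theorem log_Bw {ω ω' : W c} (h : 0 < Bw c ω ω') :
    Real.log (Bw c ω ω') = - (LL c * ∑ l, ind (vv c ω l ≠ vv c ω' l)) := by
  obtain ⟨h1, h2⟩ := Bw_pos c h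
  have hg := g_pos c
  have hρ := ρ_pos c
  have h3 : ∀ l, Real.log (bw c (vv c ω l) (vv c ω' l))
      = - (LL c * ind (vv c ω l ≠ vv c ω' l)) := by
    intro l
    by_cases hl : vv c ω l = vv c ω' l
    · rw [hl, bw_self, Real.log_one, ind_of_not (fun hc => hc rfl), mul_zero, neg_zero]
    · have hA : c.Γ.Adj (vv c ω l).1 (vv c ω' l).1 := by
        rcases h2 l with h | h
        · exact h
        · exact absurd h hl
      rw [bw_adj c hA, ind_of hl, mul_one, LL, ← Real.log_inv, inv_div]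
  have h4 : Bw c ω ω' = ∏ l, bw c (vv c ω l) (vv c ω' l) := by
    unfold Bw
    rw [ind_of h1, one_mul]
  have h5 : ∀ l ∈ (univ : Finset (Fin c.N)), bw c (vv c ω l) (vv c ω' l) ≠ 0 := by
    intro l _
    exact ((bw_pos_iff c).2 (h2 l)).ne'
  rw [h4, Real.log_prod h5]
  simp_rw [h3]
  rw [sum_neg_distrib, ← mul_sum]

theorem HH_mu : HH (mu c) (fun z => z) = Real.log (Zz c) + LL c * ex (mu c) (kv c) := by
  unfold HH
  have h1 : ex (mu c) (fun ω => - Real.log (pm (mu c) (fun z => z) ω))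
      = ex (mu c) (fun z => Real.log (Zz c) + LL c * kv c z) := by
    refine ex_congr (mu_nonneg c) fun z hz => ?_
    rw [pm_self]
    have h2 := (mu_pos_iff c).1 hz
    unfold mu
    rw [Real.log_div h2.ne' (Zz_pos c).ne', log_Bw c h2]
    unfold kv
    ring
  rw [h1, ex_add, ex_const (mu_prob c), ex_smul]

end

end Pool.Agent.helper15.FH
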